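import Pool.Agent.BLP.StmtsK

/-!
# Squad BLP, row K_GUQ: the law of a centred Gaussian process is determined by the covariance
-/

namespace Pool.Agent.BLP.H33

open MeasureTheory ProbabilityTheory Filter Topology Finset
open scoped ENNReal

noncomputable section

section one

variable {T : Type} {Ω : Type} [MeasurableSpace Ω] {P : Measure Ω} {X : T → Ω → ℝ}

/-- mean and variance of a linear combination -/
theorem lin (hX : IsGaussianProcess X P) (h0 : ∀ t, ∫ ω, X t ω ∂P = 0) (I : Finset T)
    (c : I → ℝ) :
    ∫ ω, ∑ i : I, c i * X i ω ∂P = 0 ∧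
    ∫ ω, (∑ i : I, c i * X i ω) ^ 2 ∂P = ∑ i : I, ∑ j : I, c i * c j * ∫ ω, X i ω * X j ω ∂P := by
  have hm : ∀ t, MemLp (X t) 2 P := fun t => (hX.hasGaussianLaw_eval t).memLp_two
  have hi : ∀ t, Integrable (X t) P := fun t => (hX.hasGaussianLaw_eval t).integrable
  have hij : ∀ s t, Integrable (fun ω => X s ω * X t ω) P := fun s t =>
    (hm s).integrable_mul (hm t)
  constructor
  · rw [integral_finsetSum _ fun (i : I) _ => (hi i).const_mul (c i)]
    refine Finset.sum_eq_zero fun i _ => ?_
    rw [integral_const_mul, h0, mul_zero]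
  · have h1 : ∀ ω, (∑ i : I, c i * X i ω) ^ 2 =
        ∑ i : I, ∑ j : I, c i * c j * (X i ω * X j ω) := by
      intro ω
      rw [sq, Finset.sum_mul_sum]
      refine Finset.sum_congr rfl fun i _ => Finset.sum_congr rfl fun j _ => ?_
      ring
    simp only [h1]
    rw [integral_finsetSum _ fun (i : I) _ => integrable_finsetSum _ fun (j : I) _ =>
      (hij i j).const_mul (c i * c j)]
    refine Finset.sum_congr rfl fun i _ => ?_
    rw [integral_finsetSum _ fun (j : I) _ => (hij i j).const_mul (c i * c j)]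
    refine Finset.sum_congr rfl fun j _ => ?_
    rw [integral_const_mul]

theorem dual_eq [DecidableEq T] (I : Finset T) (f : StrongDual ℝ (I → ℝ)) (x : I → ℝ) :
    f x = ∑ i : I, f (Pi.single i 1) * x i := by
  have h : x = ∑ i : I, x i • (Pi.single i (1 : ℝ) : I → ℝ) := by
    funext j
    rw [Finset.sum_apply, Finset.sum_eq_single j]
    · simp
    · intro i _ hij
      simp [Pi.single_eq_of_ne hij.symm]
    · intro h
      exact absurd (Finset.mem_univ j) h
  conv_lhs => rw [h]
  rw [map_sum]
  refine Finset.sum_congr rfl fun i _ => ?_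
  rw [map_smul, smul_eq_mul, mul_comm]

theorem cfd [DecidableEq T] (hX : IsGaussianProcess X P) (h0 : ∀ t, ∫ ω, X t ω ∂P = 0) (I : Finset T)
    (f : StrongDual ℝ (I → ℝ)) :
    charFunDual (P.map fun ω => I.restrict (X · ω)) f =
      Complex.exp (-((∑ i : I, ∑ j : I, f (Pi.single i 1) * f (Pi.single j 1) *
        ∫ ω, X i ω * X j ω ∂P : ℝ) : ℂ) / 2) := by
  have hp := hX.isProbabilityMeasure
  rw [(hX.hasGaussianLaw I).charFunDual_map_eq_fun]
  have h1 : (fun ω => f (I.restrict (X · ω))) =
      fun ω => ∑ i : I, f (Pi.single i 1) * X i ω := by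
    funext ω
    rw [dual_eq]
    rfl
  obtain ⟨h2, h3⟩ := lin hX h0 I (fun i => f (Pi.single i 1))
  have h4 : AEMeasurable (fun ω => ∑ i : I, f (Pi.single i 1) * X i ω) P := by
    refine Finset.aemeasurable_fun_sum _ fun i _ => ?_
    exact (hX.aemeasurable i).const_mul _
  rw [h1, variance_of_integral_eq_zero h4 h2, h3, h2]
  congr 1
  push_cast
  ring

end one

/-- row K_GUQ -/
theorem guq : GuqStmt := by
  intro T _ Ω Ω' _ _ P P' X Y hX hY hX0 hY0 hc
  classical
  have hp := hX.isProbabilityMeasure
  have hp' := hY.isProbabilityMeasure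
  have mX : AEMeasurable (fun ω t => X t ω) P := aemeasurable_pi_lambda _ hX.aemeasurable
  have mY : AEMeasurable (fun ω t => Y t ω) P' := aemeasurable_pi_lambda _ hY.aemeasurable
  have hpm : IsProbabilityMeasure (P'.map fun ω t => Y t ω) := Measure.isProbabilityMeasure_map mY
  have hr : ∀ I : Finset T, Measurable (I.restrict : (T → ℝ) → (I → ℝ)) :=
    fun I => Finset.measurable_restrict I
  have key : ∀ I : Finset T, (P.map fun ω t => X t ω).map I.restrict =
      (P'.map fun ω t => Y t ω).map I.restrict := by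
    intro I
    rw [AEMeasurable.map_map_of_aemeasurable (hr I).aemeasurable mX,
      AEMeasurable.map_map_of_aemeasurable (hr I).aemeasurable mY]
    have e1 : (I.restrict ∘ fun (ω : Ω) (t : T) => X t ω) = fun ω => I.restrict (X · ω) := rfl
    have e2 : (I.restrict ∘ fun (ω : Ω') (t : T) => Y t ω) = fun ω => I.restrict (Y · ω) := rfl
    rw [e1, e2]
    have g1 := (hX.hasGaussianLaw I).isGaussian_map
    have g2 := (hY.hasGaussianLaw I).isGaussian_map
    apply Measure.ext_of_charFunDual
    funext f
    rw [cfd hX hX0, cfd hY hY0]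
    simp only [hc]
  have hfin : ∀ I : Finset T, IsFiniteMeasure ((P'.map fun ω t => Y t ω).map I.restrict) :=
    fun I => inferInstance
  exact IsProjectiveLimit.unique (P := fun I => (P'.map fun ω t => Y t ω).map I.restrict)
    (fun I => key I) (fun I => rfl)

end

end Pool.Agent.BLP.H33
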