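import Pool.Agent.BLP.StmtsM

/-!
# Squad BLP, row M_MEA: measurability of the last-passage values

For continuous environments the last-passage value is the supremum of the energies over a
countable family of paths which does not depend on the environment.
-/

namespace Pool.Agent.BLP.H33

open MeasureTheory ProbabilityTheory Filter Topology Finset
open scoped ENNReal

noncomputable section

/-- paths -/
def IsP (m : ℤ) (s : ℝ) (n : ℤ) (t : ℝ) (τ : ℤ → ℝ) : Prop :=
  τ (m - 1) = s ∧ τ n = t ∧ ∀ r, m ≤ r → r ≤ n → τ (r - 1) ≤ τ r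

theorem l_eq (b : Env) (m : ℤ) (s : ℝ) (n : ℤ) (t : ℝ) :
    L b m s n t = sSup {E | ∃ τ : ℤ → ℝ, IsP m s n t τ ∧ E = En b τ m n} := by
  unfold L IsP
  congr 1
  ext E
  constructor
  · rintro ⟨τ, h1, h2, h3, h4⟩
    exact ⟨τ, ⟨h1, h2, h3⟩, h4⟩
  · rintro ⟨τ, ⟨h1, h2, h3⟩, h4⟩
    exact ⟨τ, h1, h2, h3, h4⟩

/-- the values of a path lie between its end points -/
theorem rng {m : ℤ} {s : ℝ} {n : ℤ} {t : ℝ} {τ : ℤ → ℝ} (h : IsP m s n t τ) (r : ℤ)
    (h1 : m - 1 ≤ r) (h2 : r ≤ n) : s ≤ τ r ∧ τ r ≤ t := by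
  obtain ⟨ha, hb, hc⟩ := h
  constructor
  · have key : ∀ k : ℕ, m - 1 + k ≤ n → s ≤ τ (m - 1 + k) := by
      intro k
      induction k with
      | zero =>
        intro _
        simp [ha]
      | succ k ih =>
        intro hk
        push_cast at hk ⊢
        have h3 := ih (by linarith)
        have h4 := hc (m - 1 + (k + 1)) (by omega) hk
        have h5 : m - 1 + ((k : ℤ) + 1) - 1 = m - 1 + k := by ring
        rw [h5] at h4
        exact h3.trans h4
    have h3 := key (r - (m - 1)).toNat (by omega)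
    have h4 : m - 1 + ((r - (m - 1)).toNat : ℤ) = r := by omega
    rwa [h4] at h3
  · have key : ∀ k : ℕ, m - 1 ≤ n - k → τ (n - k) ≤ t := by
      intro k
      induction k with
      | zero =>
        intro _
        simp [hb]
      | succ k ih =>
        intro hk
        push_cast at hk ⊢
        have h3 := ih (by linarith)
        have h4 := hc (n - k) (by omega) (by omega)
        have h5 : n - ((k : ℤ) + 1) = n - k - 1 := by ring
        rw [h5]
        exact h4.trans h3
    have h3 := key (n - r).toNat (by omega)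
    have h4 : n - ((n - r).toNat : ℤ) = r := by omega
    rwa [h4] at h3

/-- the energies are bounded -/
theorem bdd {b : Env} (hb : Cts b) (m : ℤ) (s : ℝ) (n : ℤ) (t : ℝ) :
    ∃ C : ℝ, ∀ τ, IsP m s n t τ → En b τ m n ≤ C := by
  have h1 : ∀ r : ℤ, ∃ C, ∀ x ∈ Set.Icc s t, ‖b r x‖ ≤ C := fun r =>
    isCompact_Icc.exists_bound_of_continuousOn (hb r).continuousOn
  choose C hC using h1
  refine ⟨∑ r ∈ Finset.Icc m n, (C r + C r), fun τ hτ => ?_⟩
  unfold En
  refine Finset.sum_le_sum fun r hr => ?_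
  obtain ⟨h2, h3⟩ := Finset.mem_Icc.1 hr
  obtain ⟨h4, h5⟩ := rng hτ r (by omega) h3
  obtain ⟨h6, h7⟩ := rng hτ (r - 1) (by omega) (by omega)
  have h8 := hC r _ ⟨h4, h5⟩
  have h9 := hC r _ ⟨h6, h7⟩
  rw [Real.norm_eq_abs] at h8 h9
  have h10 := (abs_le.1 h8).2
  have h11 := (abs_le.1 h9).1
  linarith

/-- approximation of the times -/
def phi (s t : ℝ) (j : ℕ) (u : ℝ) : ℝ :=
  if t ≤ u then t else max s ((⌊((j : ℝ) + 1) * u⌋ : ℝ) / ((j : ℝ) + 1))

/-- the set of the possible times -/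
def DD (s t : ℝ) : Set ℝ := Set.range (fun q : ℚ => (q : ℝ)) ∪ {s, t}

theorem dd_cnt (s t : ℝ) : (DD s t).Countable :=
  (Set.countable_range _).union (Set.toFinite _).countable

theorem phi_mem (s t : ℝ) (j : ℕ) (u : ℝ) : phi s t j u ∈ DD s t := by
  unfold phi DD
  split_ifs with h
  · right; right; rfl
  · rcases max_choice s ((⌊((j : ℝ) + 1) * u⌋ : ℝ) / ((j : ℝ) + 1)) with h1 | h1
    · rw [h1]; right; left; rfl
    · rw [h1]; left
      exact ⟨((⌊((j : ℝ) + 1) * u⌋ : ℤ) : ℚ) / ((j : ℚ) + 1), by push_cast; rfl⟩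

theorem fl_le (j : ℕ) (u : ℝ) : (⌊((j : ℝ) + 1) * u⌋ : ℝ) / ((j : ℝ) + 1) ≤ u := by
  have hj : (0 : ℝ) < (j : ℝ) + 1 := by positivity
  rw [div_le_iff₀ hj, mul_comm]
  exact Int.floor_le _

theorem le_fl (j : ℕ) (u : ℝ) :
    u - 1 / ((j : ℝ) + 1) ≤ (⌊((j : ℝ) + 1) * u⌋ : ℝ) / ((j : ℝ) + 1) := by
  have hj : (0 : ℝ) < (j : ℝ) + 1 := by positivity
  rw [le_div_iff₀ hj, sub_mul, one_div, inv_mul_cancel₀ hj.ne', mul_comm]
  exact (Int.sub_one_lt_floor _).le

theorem phi_mono {s t : ℝ} (hst : s ≤ t) (j : ℕ) {u v : ℝ} (h : u ≤ v) :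
    phi s t j u ≤ phi s t j v := by
  have hj : (0 : ℝ) < (j : ℝ) + 1 := by positivity
  unfold phi
  split_ifs with h1 h2 h2
  · exact le_rfl
  · exact absurd (h1.trans h) h2
  · refine max_le hst ((fl_le j u).trans (not_le.1 h1).le)
  · refine max_le_max le_rfl ?_
    refine div_le_div_of_nonneg_right ?_ hj.le
    exact_mod_cast Int.floor_le_floor (mul_le_mul_of_nonneg_left h hj.le)

theorem phi_s {s t : ℝ} (hst : s ≤ t) (j : ℕ) : phi s t j s = s := by
  unfold phi
  split_ifs with h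
  · exact le_antisymm h hst
  · exact max_eq_left (fl_le j s)

theorem phi_t (s t : ℝ) (j : ℕ) : phi s t j t = t := by
  unfold phi
  rw [if_pos le_rfl]

theorem phi_lim {s t u : ℝ} (h1 : s ≤ u) (h2 : u ≤ t) :
    Tendsto (fun j => phi s t j u) atTop (𝓝 u) := by
  by_cases h : t ≤ u
  · have h3 : t = u := le_antisymm h h2
    have h4 : (fun j => phi s t j u) = fun _ => u := by
      funext j
      unfold phi
      rw [if_pos h, h3]
    rw [h4]
    exact tendsto_const_nhds
  · have h3 : (fun j => phi s t j u) =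
        fun j : ℕ => max s ((⌊((j : ℝ) + 1) * u⌋ : ℝ) / ((j : ℝ) + 1)) := by
      funext j
      unfold phi
      rw [if_neg h]
    rw [h3]
    have h4 : Tendsto (fun j : ℕ => (⌊((j : ℝ) + 1) * u⌋ : ℝ) / ((j : ℝ) + 1)) atTop (𝓝 u) := by
      refine tendsto_of_tendsto_of_tendsto_of_le_of_le ?_ tendsto_const_nhds (le_fl · u) (fl_le · u)
      have h5 := (tendsto_one_div_add_atTop_nhds_zero_nat (𝕜 := ℝ)).const_sub u
      rwa [sub_zero] at h5
    have h5 := (tendsto_const_nhds (x := s)).max h4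
    rwa [max_eq_right h1] at h5

theorem phi_isP {m : ℤ} {s : ℝ} {n : ℤ} {t : ℝ} {τ : ℤ → ℝ} (hst : s ≤ t) (h : IsP m s n t τ)
    (j : ℕ) : IsP m s n t (fun r => phi s t j (τ r)) := by
  obtain ⟨ha, hb, hc⟩ := h
  refine ⟨?_, ?_, fun r h1 h2 => phi_mono hst j (hc r h1 h2)⟩
  · change phi s t j (τ (m - 1)) = s
    rw [ha, phi_s hst]
  · change phi s t j (τ n) = t
    rw [hb, phi_t]

/-- the path with the given values on the levels `m, .., n` -/
def pf (m : ℤ) (s : ℝ) (n : ℤ) (t : ℝ) (f : ↥(Finset.Icc m n) → ↥(DD s t)) : ℤ → ℝ :=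
  fun r => if h : r ∈ Finset.Icc m n then (f ⟨r, h⟩ : ℝ) else if r < m then s else t

/-- the countable set of paths -/
def II (m : ℤ) (s : ℝ) (n : ℤ) (t : ℝ) : Type :=
  {f : ↥(Finset.Icc m n) → ↥(DD s t) // IsP m s n t (pf m s n t f)}

instance cntI (m : ℤ) (s : ℝ) (n : ℤ) (t : ℝ) : Countable (II m s n t) := by
  have := (dd_cnt s t).to_subtype
  unfold II
  infer_instance

/-- every path with values in `DD` has the energy of a path of the countable set -/
theorem exI {m : ℤ} {s : ℝ} {n : ℤ} {t : ℝ} {τ : ℤ → ℝ} (h : IsP m s n t τ)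
    (hD : ∀ r, τ r ∈ DD s t) (hmn : m ≤ n) : ∃ i : II m s n t, ∀ b : Env,
      En b (pf m s n t i.1) m n = En b τ m n := by
  let f : ↥(Finset.Icc m n) → ↥(DD s t) := fun r => ⟨τ r, hD r⟩
  have h1 : ∀ r, m - 1 ≤ r → r ≤ n → pf m s n t f r = τ r := by
    intro r h1 h2
    unfold pf
    by_cases h3 : r ∈ Finset.Icc m n
    · rw [dif_pos h3]
    · rw [dif_neg h3]
      have h4 : r = m - 1 := by
        by_contra h4
        exact h3 (Finset.mem_Icc.2 ⟨by omega, h2⟩)
      rw [if_pos (by omega), h4, h.1]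
  refine ⟨⟨f, ?_, ?_, ?_⟩, fun b => ?_⟩
  · rw [h1 _ le_rfl (by omega), h.1]
  · rw [h1 _ (by omega) le_rfl, h.2.1]
  · intro r h2 h3
    rw [h1 _ (by omega) (by omega), h1 _ (by omega) h3]
    exact h.2.2 r h2 h3
  · unfold En
    refine Finset.sum_congr rfl fun r hr => ?_
    obtain ⟨h2, h3⟩ := Finset.mem_Icc.1 hr
    change b r (pf m s n t f r) - b r (pf m s n t f (r - 1)) = _
    rw [h1 _ (by omega) h3, h1 _ (by omega) (by omega)]

/-- the last-passage value is a countable supremum -/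
theorem l_sup {b : Env} (hb : Cts b) {m : ℤ} {s : ℝ} {n : ℤ} {t : ℝ} (hmn : m ≤ n)
    (hst : s ≤ t) : L b m s n t = ⨆ i : II m s n t, En b (pf m s n t i.1) m n := by
  obtain ⟨C, hC⟩ := bdd hb m s n t
  have hex : ∃ τ, IsP m s n t τ := by
    refine ⟨fun r => if r < m then s else t, ?_, ?_, fun r h1 h2 => ?_⟩
    · change (if m - 1 < m then s else t) = s
      rw [if_pos (by omega)]
    · change (if n < m then s else t) = t
      rw [if_neg (by omega)]
    · change (if r - 1 < m then s else t) ≤ if r < m then s else t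
      rw [if_neg (show ¬ r < m by omega)]
      split_ifs
      · exact hst
      · exact le_rfl
  have hbd : BddAbove (Set.range fun i : II m s n t => En b (pf m s n t i.1) m n) := by
    refine ⟨C, ?_⟩
    rintro _ ⟨i, rfl⟩
    exact hC _ i.2
  have hbS : BddAbove {E | ∃ τ : ℤ → ℝ, IsP m s n t τ ∧ E = En b τ m n} := by
    refine ⟨C, ?_⟩
    rintro _ ⟨τ, h1, rfl⟩
    exact hC _ h1
  have hne : Nonempty (II m s n t) := by
    obtain ⟨τ, hτ⟩ := hex
    obtain ⟨i, -⟩ := exI (phi_isP hst hτ 0) (fun r => phi_mem s t 0 (τ r)) hmn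
    exact ⟨i⟩
  rw [l_eq]
  apply le_antisymm
  · refine csSup_le ?_ ?_
    · obtain ⟨τ, hτ⟩ := hex
      exact ⟨_, τ, hτ, rfl⟩
    · rintro _ ⟨τ, hτ, rfl⟩
      have h1 : Tendsto (fun j : ℕ => En b (fun r => phi s t j (τ r)) m n) atTop
          (𝓝 (En b τ m n)) := by
        unfold En
        refine tendsto_finsetSum _ fun r hr => ?_
        obtain ⟨h2, h3⟩ := Finset.mem_Icc.1 hr
        obtain ⟨h4, h5⟩ := rng hτ r (by omega) h3
        obtain ⟨h6, h7⟩ := rng hτ (r - 1) (by omega) (by omega)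
        exact (((hb r).tendsto _).comp (phi_lim h4 h5)).sub
          (((hb r).tendsto _).comp (phi_lim h6 h7))
      refine le_of_tendsto' h1 fun j => ?_
      obtain ⟨i, hi⟩ := exI (phi_isP hst hτ j) (fun r => phi_mem s t j (τ r)) hmn
      rw [← hi b]
      exact le_ciSup hbd i
  · refine ciSup_le fun i => ?_
    exact le_csSup hbS ⟨_, i.2, rfl⟩

/-- row M_MEA -/
theorem mea : MeaStmt := by
  intro X _ μ B hS m s n t
  by_cases hmn : m ≤ n
  · by_cases hst : s ≤ t
    · have h1 : (fun x => L (B x) m s n t) =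
          fun x => ⨆ i : II m s n t, En (B x) (pf m s n t i.1) m n := by
        funext x
        exact l_sup (hS.cts x) hmn hst
      rw [h1]
      refine Measurable.iSup fun i => ?_
      unfold En
      refine Finset.measurable_fun_sum _ fun r _ => ?_
      exact (hS.mea _ _).sub (hS.mea _ _)
    · have h1 : (fun x => L (B x) m s n t) = fun _ => 0 := by
        funext x
        rw [l_eq]
        have h2 : {E | ∃ τ : ℤ → ℝ, IsP m s n t τ ∧ E = En (B x) τ m n} = ∅ := by
          ext E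
          simp only [Set.mem_ofPred_eq, Set.mem_empty_iff_false, iff_false]
          rintro ⟨τ, h3, -⟩
          obtain ⟨h4, h5⟩ := rng h3 n (by omega) le_rfl
          exact hst (h4.trans h5)
        rw [h2, Real.sSup_empty]
      rw [h1]
      exact measurable_const
  · have h1 : (fun x => L (B x) m s n t) = fun _ => 0 := by
      funext x
      rw [l_eq]
      have h2 : ∀ τ : ℤ → ℝ, En (B x) τ m n = 0 := by
        intro τ
        unfold En
        rw [Finset.Icc_eq_empty hmn, Finset.sum_empty]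
      rcases Set.eq_empty_or_nonempty {E | ∃ τ : ℤ → ℝ, IsP m s n t τ ∧ E = En (B x) τ m n}
        with h3 | h3
      · rw [h3, Real.sSup_empty]
      · have h4 : {E | ∃ τ : ℤ → ℝ, IsP m s n t τ ∧ E = En (B x) τ m n} = {0} := by
          obtain ⟨E, τ, h5, h6⟩ := h3
          ext E'
          constructor
          · rintro ⟨τ', -, rfl⟩
            exact h2 τ'
          · rintro rfl
            exact ⟨τ, h5, (h2 τ).symm⟩
        rw [h4, csSup_singleton]
    rw [h1]
    exact measurable_const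

end

end Pool.Agent.BLP.H33
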